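import Mathlib
import Pool.Prelude.Def_F_c31e40fa
import Pool.Agent.H548R3.MB.Eff2

set_option autoImplicit false

open MeasureTheory Filter Metric Set

namespace Pool.Agent.Results.MP_c35c17_an.BoundedPeriodCentres

/-- The map `z ↦ z ^ d + c`. -/
def f (d : ℕ) (c : ℂ) : ℂ → ℂ := fun z => z ^ d + c

/-- The escape rate (Green's function) of `z ↦ z ^ d + c` at the point `z`. -/
noncomputable def green (d : ℕ) (c z : ℂ) : ℝ :=
  limsup (fun n : ℕ => Real.posLog ‖(f d c)^[n] z‖ / (d : ℝ) ^ n) atTop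

/-- `B d c s a b` is `(d / π)` times the geometric mean of two moments of the sublevel set
`{green ≤ s}`, where `a + b = d - 2`. For `d = 2` it is `(2 / π)` times the area of the set. -/
noncomputable def B (d : ℕ) (c : ℂ) (s : ℝ) (a b : ℕ) : ℝ :=
  d / Real.pi * √((∫ z in {z | green d c z ≤ s}, ‖z‖ ^ (2 * a)) *
    ∫ z in {z | green d c z ≤ s}, ‖z‖ ^ (2 * b))

/-- Effective density of hyperbolicity in the Multibrot sets, by superattracting parameters of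
bounded period. -/
theorem result (d : ℕ) (hd : 2 ≤ d) :
    -- (1) holomorphic discs without superattracting parameters of period at most `N`
    (∀ ε : ℝ, 0 < ε → ∃ K : ℝ, 0 < K ∧ ∀ N : ℕ, 2 ≤ N → ∀ γ : ℂ → ℂ,
      DifferentiableOn ℂ γ (ball 0 1) → γ 0 ∈ N62a1eb23.multibrotSet d →
      (∀ t ∈ ball (0 : ℂ) 1, ∀ p : ℕ, 1 ≤ p → p ≤ N → (f d (γ t))^[p] 0 ≠ 0) →
      ∀ a b : ℕ, a + b + 2 = d →
        ‖deriv γ 0‖ ≤ (1 + ε) * B d (γ 0) (K / (d : ℝ) ^ N) a b) ∧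
    -- (2) the distance to the nearest superattracting parameter of period at most `N`
    (∀ ε : ℝ, 0 < ε → ∃ K : ℝ, 0 < K ∧ ∀ N : ℕ, 2 ≤ N → ∀ c ∈ N62a1eb23.multibrotSet d, ∃ c' : ℂ,
      (∃ p : ℕ, p ≤ N ∧ (f d c')^[p] 0 = 0 ∧ N62a1eb23.IsAttractingCycle (f d c') p 0) ∧
      ∀ a b : ℕ, a + b + 2 = d → ‖c' - c‖ ≤ (1 + ε) * B d c (K / (d : ℝ) ^ N) a b) ∧
    -- (3) exponential density, in terms of the period, at parameters with polynomial decay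
    (∀ α : ℝ, 0 < α → ∀ C : ℝ, ∃ K : ℝ, ∀ c ∈ N62a1eb23.multibrotSet d,
      (∀ s ∈ Ioc (0 : ℝ) 1, volume {z : ℂ | green d c z ≤ s} ≤ ENNReal.ofReal (C * s ^ α)) →
      ∀ N : ℕ, 1 ≤ N → ∃ c' : ℂ,
        (∃ p : ℕ, p ≤ N ∧ (f d c')^[p] 0 = 0 ∧ N62a1eb23.IsAttractingCycle (f d c') p 0) ∧
        ‖c' - c‖ ≤ K * ((d : ℝ) ^ N) ^ (-α)) := by
  refine ⟨?_, ?_, ?_⟩
  · intro ε hε
    obtain ⟨k, hk⟩ := Pool.Agent.H548R3.MB.exists_k hε
    have hK : 0 < Pool.Agent.H548R3.MB.KC d k := by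
      have h1 := Pool.Agent.H548R3.MB.lt_KC hd k
      have h2 : (0 : ℝ) ≤ d := Nat.cast_nonneg d
      linarith
    refine ⟨_, hK, ?_⟩
    intro N hN γ hγ hc hno a b hab
    obtain ⟨J, rfl⟩ : ∃ J, N = J + 2 := ⟨N - 2, by omega⟩
    exact Pool.Agent.H548R3.MB.scale hε (norm_nonneg _) hk
      (Pool.Agent.H548R3.MB.disc_ineq hab hγ hc
        (fun t ht ⟨p, h1, h2, h3⟩ => hno t ht p h1 h2 h3) k)
  · intro ε hε
    obtain ⟨k, hk⟩ := Pool.Agent.H548R3.MB.exists_k hε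
    have hK : 0 < Pool.Agent.H548R3.MB.KC d k := by
      have h1 := Pool.Agent.H548R3.MB.lt_KC hd k
      have h2 : (0 : ℝ) ≤ d := Nat.cast_nonneg d
      linarith
    refine ⟨_, hK, ?_⟩
    intro N hN c hc
    obtain ⟨J, rfl⟩ : ∃ J, N = J + 2 := ⟨N - 2, by omega⟩
    obtain ⟨c', ⟨p, hp1, hp2, hp3⟩, h⟩ := Pool.Agent.H548R3.MB.nearest hd hc J
    refine ⟨c', ⟨p, hp2, hp3, Pool.Agent.H548R3.MB.att_of_centre hd hp1 hp3⟩, ?_⟩
    intro a b hab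
    exact Pool.Agent.H548R3.MB.scale hε (norm_nonneg _) hk (h k a b hab)
  · intro α hα C
    obtain ⟨K, hK⟩ := Pool.Agent.H548R3.MB.expo hd hα C
    refine ⟨K, ?_⟩
    intro c hc hv N hN
    obtain ⟨c', ⟨p, hp1, hp2, hp3⟩, h⟩ := hK c hc hv N hN
    exact ⟨c', ⟨p, hp2, hp3, Pool.Agent.H548R3.MB.att_of_centre hd hp1 hp3⟩, h⟩

end Pool.Agent.Results.MP_c35c17_an.BoundedPeriodCentres
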